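import Mathlib

/-!
Greedy colouring by removing independent sets.
-/

namespace Pool.Agent.Work.MP_327896_co

open Finset
open scoped Classical

lemma greedy {V : Type} (G : SimpleGraph V) {N : ℝ} {a : ℕ} (ha : 0 < a)
    (h : ∀ X : Finset V, N ≤ X.card → ∃ S ⊆ X, G.IsNIndepSet a S) :
    ∀ (n : ℕ) (X : Finset V), X.card = n → ∃ (m : ℕ) (c : V → ℕ), (m : ℝ) ≤ X.card / a + N ∧
      (∀ v ∈ X, c v < m) ∧ ∀ u ∈ X, ∀ v ∈ X, G.Adj u v → c u ≠ c v := by
  intro n
  induction n using Nat.strong_induction_on with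
  | _ n ih =>
  intro X hX
  have ha' : (0 : ℝ) < a := by exact_mod_cast ha
  by_cases hc : N ≤ X.card
  · obtain ⟨S, hS, h1, h2⟩ := h X hc
    have h3 : (X \ S).card + a = X.card := by rw [← h2]; exact card_sdiff_add_card_eq_card hS
    obtain ⟨m, c, a1, a2, a3⟩ := ih (X \ S).card (by omega) (X \ S) rfl
    refine ⟨m + 1, fun v => if v ∈ S then m else c v, ?_, fun v hv => ?_, fun u hu v hv huv => ?_⟩
    · have e : (X.card : ℝ) / a = (X \ S).card / a + 1 := by
        rw [← h3]; push_cast; field_simp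
      rw [e]; push_cast; linarith
    · by_cases x : v ∈ S
      · simp [x]
      · have := a2 v (mem_sdiff.2 ⟨hv, x⟩)
        simp only [x, if_false]; omega
    · by_cases x : u ∈ S <;> by_cases y : v ∈ S
      · exact absurd huv (h1 x y huv.ne)
      · have := a2 v (mem_sdiff.2 ⟨hv, y⟩)
        simp only [x, y, if_true, if_false]; omega
      · have := a2 u (mem_sdiff.2 ⟨hu, x⟩)
        simp only [x, y, if_true, if_false]; omega
      · simp only [x, y, if_false]
        exact a3 u (mem_sdiff.2 ⟨hu, x⟩) v (mem_sdiff.2 ⟨hv, y⟩) huv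
  · push Not at hc
    refine ⟨X.card, fun v => if x : v ∈ X then (X.equivFin ⟨v, x⟩ : ℕ) else 0, ?_,
      fun v hv => ?_, fun u hu v hv huv => ?_⟩
    · have : 0 ≤ (X.card : ℝ) / a := by positivity
      linarith
    · simp only [hv, dif_pos]; exact (X.equivFin ⟨v, hv⟩).2
    · simp only [hu, hv, dif_pos]
      intro x
      have := X.equivFin.injective (Fin.ext x)
      exact huv.ne (congrArg Subtype.val this)

lemma chrom_le {n : ℕ} (G : SimpleGraph (Fin n)) {N : ℝ} {a : ℕ} (ha : 0 < a)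
    (h : ∀ X : Finset (Fin n), N ≤ X.card → ∃ S ⊆ X, G.IsNIndepSet a S) :
    (G.chromaticNumber.toNat : ℝ) ≤ n / a + N := by
  obtain ⟨m, c, a1, a2, a3⟩ := greedy G ha h _ univ rfl
  have hc : G.Colorable m := ⟨SimpleGraph.Coloring.mk (fun v => ⟨c v, a2 v (mem_univ _)⟩)
    fun {u v} huv x => a3 u (mem_univ _) v (mem_univ _) huv (congrArg Fin.val x)⟩
  have h1 : G.chromaticNumber.toNat ≤ m := ENat.toNat_le_of_le_natCast hc.chromaticNumber_le
  have h2 : (G.chromaticNumber.toNat : ℝ) ≤ m := by exact_mod_cast h1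
  simp only [card_univ, Fintype.card_fin] at a1
  linarith

end Pool.Agent.Work.MP_327896_co
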