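import Pool.Agent.Work.MP_e10cd8_co.RamAll
import Pool.Agent.Work.MP_e10cd8_co.Inst
import Pool.Agent.Work.MP_e10cd8_co.ES

/-!
A Ramsey bound that is uniform in the product of the two sizes.
-/

namespace Pool.Agent.Work.MP_327896_co

open Finset Pool.Agent.Work.MP_e10cd8_co
open scoped Classical

lemma ram_pairs : ∃ C : ℝ, 1 ≤ C ∧ ∀ (V : Type) (a b : V → V → Prop), (∀ u v, a u v → a v u) →
    (∀ u v, b u v → b v u) → (∀ u v, u ≠ v → ¬ a u v → b u v) →
    ∀ (k l : ℕ) (q : ℕ × ℕ), Listed (decQ Ram.qn) 102 q → ∀ X : Finset V,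
      C * Real.exp (q.1 / D * k + q.2 / D * l) ≤ X.card → Clq a k X ∨ Clq b l X := by
  have hs : symChk (decQ Ram.qn) 102 102 = true := by decide +kernel
  obtain ⟨C, hC, h⟩ := two_sided (ρ₁ := 1) (σ₁ := 1) (ρ₂ := 1) (σ₂ := 1) one_pos one_pos
    (Q := Listed (decQ Ram.qn) 102) (top₁ := 1008000000) (top₂ := 1008000000)
    (by unfold D; norm_num) Ram.cov0 (by rw [listed_symm hs]; exact Ram.cov0)
  refine ⟨C, hC, fun V a b ha hb hab => ?_⟩
  exact h V (graphSys a b ha hb hab)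
    (graphSys b a hb ha fun u v h x => by_contra fun y => x (hab u v h y)) rfl rfl

lemma le_of_sq_le_sq_aux {a b : ℝ} (hb : 0 ≤ b) (h : a ^ 2 ≤ b ^ 2) : a ≤ b :=
  le_trans (le_abs_self a) (abs_le_of_sq_le_sq h hb)

lemma quad_cell {x y g lo hi s t : ℝ} (h1 : lo * s ≤ t) (h2 : t ≤ hi * s) (hs : 0 ≤ s)
    (ht : 0 ≤ t) (hg : 0 ≤ g) (hl : lo < hi)
    (e1 : (x + y * lo) ^ 2 ≤ g ^ 2 * lo) (e2 : (x + y * hi) ^ 2 ≤ g ^ 2 * hi) :
    x * s + y * t ≤ g * Real.sqrt (s * t) := by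
  have a1 := mul_nonneg (mul_nonneg (sub_nonneg.2 h2) hs) (sub_nonneg.2 e1)
  have a2 := mul_nonneg (mul_nonneg (sub_nonneg.2 h1) hs) (sub_nonneg.2 e2)
  have a3 := mul_nonneg (mul_nonneg (sq_nonneg y) (sub_pos.2 hl).le)
    (mul_nonneg (sub_nonneg.2 h1) (sub_nonneg.2 h2))
  have a4 : 0 ≤ (hi - lo) * (g ^ 2 * (s * t) - (x * s + y * t) ^ 2) := by
    have : (hi - lo) * (g ^ 2 * (s * t) - (x * s + y * t) ^ 2)
      = (hi * s - t) * s * (g ^ 2 * lo - (x + y * lo) ^ 2)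
        + (t - lo * s) * s * (g ^ 2 * hi - (x + y * hi) ^ 2)
        + y ^ 2 * (hi - lo) * ((t - lo * s) * (hi * s - t)) := by ring
    rw [this]; linarith
  have a5 : 0 ≤ g ^ 2 * (s * t) - (x * s + y * t) ^ 2 :=
    le_of_mul_le_mul_left (by rw [mul_zero]; exact a4) (sub_pos.2 hl)
  have a6 : (g * Real.sqrt (s * t)) ^ 2 = g ^ 2 * (s * t) := by
    rw [mul_pow, Real.sq_sqrt (by positivity)]
  exact le_of_sq_le_sq_aux (by positivity) (by linarith)

lemma es_pair {g s t : ℝ} (hg : 1.3 ≤ g) (ht : 0 < t) (h : 20 * t ≤ s) :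
    ∃ x y : ℝ, 0 ≤ x ∧ 0 ≤ y ∧ 1 / Real.exp x + 1 / Real.exp y ≤ 1 ∧
      x * s + y * t ≤ g * Real.sqrt (s * t) := by
  have hs : 0 < s := by linarith
  set u := Real.sqrt s with hu
  set w := Real.sqrt t with hw
  have u0 : 0 < u := Real.sqrt_pos.2 hs
  have w0 : 0 < w := Real.sqrt_pos.2 ht
  have u2 : u ^ 2 = s := Real.sq_sqrt hs.le
  have w2 : w ^ 2 = t := Real.sq_sqrt ht.le
  have huw : 4.4 * w ≤ u := le_of_sq_le_sq_aux u0.le (by nlinarith)
  set x := g * w / (2 * u) with hx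
  set y := g * u / (2 * w) with hy
  have x0 : 0 < x := by positivity
  have hxy : x * y = g ^ 2 / 4 := by rw [hx, hy]; field_simp; norm_num
  have y1 : 2.86 ≤ y := by rw [hy, le_div_iff₀ (by positivity)]; nlinarith
  refine ⟨x, y, x0.le, by linarith, ?_, le_of_eq ?_⟩
  · have a1 : 1 / Real.exp x ≤ 1 / (1 + x) :=
      one_div_le_one_div_of_le (by positivity) (by linarith [Real.add_one_le_exp x])
    have a2 : 1 / Real.exp y ≤ 1 / (1 + y + y ^ 2 / 2) :=
      one_div_le_one_div_of_le (by positivity) (Real.quadratic_le_exp_of_nonneg (by linarith))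
    have a3 : 1 / (1 + y + y ^ 2 / 2) ≤ x / (1 + x) := by
      rw [div_le_div_iff₀ (by positivity) (by positivity)]
      have b1 : 0.4225 ≤ x * y := by rw [hxy]; nlinarith
      nlinarith
    have a4 : 1 / (1 + x) + x / (1 + x) = 1 := by field_simp
    linarith
  · rw [Real.sqrt_mul hs.le, ← hu, ← hw, ← u2, ← w2, hx, hy]; field_simp; norm_num

lemma ram_half : ∃ C : ℝ, 1 ≤ C ∧ ∀ (V : Type) (a b : V → V → Prop), (∀ u v, a u v → a v u) →
    (∀ u v, b u v → b v u) → (∀ u v, u ≠ v → ¬ a u v → b u v) →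
    ∀ s t : ℕ, t ≤ s → ∀ X : Finset V,
      C * Real.exp (1.30591 * Real.sqrt (s * t)) ≤ X.card → Clq a (s + 1) X ∨ Clq b (t + 1) X := by
  obtain ⟨C, hC, h⟩ := ram_pairs
  have e3 : 4 ≤ Real.exp 3 := by linarith [Real.add_one_le_exp 3]
  refine ⟨C * Real.exp 3, by nlinarith, fun V a b ha hb hab s t hts X hX => ?_⟩
  have hE := Real.exp_pos (1.30591 * Real.sqrt (s * t))
  have es : ∀ x y : ℝ, 0 ≤ x → 0 ≤ y → 1 / Real.exp x + 1 / Real.exp y ≤ 1 →
      x * s + y * t ≤ 1.30591 * Real.sqrt (s * t) → Clq a (s + 1) X ∨ Clq b (t + 1) X := by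
    intro x y hx hy h1 h2
    refine (graphSys a b ha hb hab).es one_pos one_pos (Real.one_le_exp hx) (Real.one_le_exp hy)
      (by simpa using h1) _ s t rfl X ?_
    rw [← Real.exp_nat_mul, ← Real.exp_nat_mul, ← Real.exp_add]
    have h3 : Real.exp (s * x + t * y) ≤ Real.exp (1.30591 * Real.sqrt (s * t)) :=
      Real.exp_le_exp.2 (by linarith)
    have h4 : 2 ≤ C * Real.exp 3 := by nlinarith
    nlinarith
  have cell : ∀ (i x y : ℕ) (lo hi : ℝ), i < 102 → decQ Ram.qn i = (x, y) →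
      (x : ℝ) / D + y / D ≤ 3 → lo < hi → lo * s ≤ t → t ≤ hi * s →
      ((x : ℝ) / D + y / D * lo) ^ 2 ≤ 1.30591 ^ 2 * lo →
      ((x : ℝ) / D + y / D * hi) ^ 2 ≤ 1.30591 ^ 2 * hi → Clq a (s + 1) X ∨ Clq b (t + 1) X := by
    intro i x y lo hi hi' hq h3 hl h1 h2 e1 e2
    refine h V a b ha hb hab _ _ (x, y) ⟨i, hi', hq⟩ X (le_trans ?_ hX)
    have := quad_cell h1 h2 (Nat.cast_nonneg _) (Nat.cast_nonneg _) (by norm_num) hl e1 e2
    rw [mul_assoc, ← Real.exp_add]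
    refine mul_le_mul_of_nonneg_left (Real.exp_le_exp.2 ?_) (by linarith)
    push_cast
    linarith
  have hts' : (t : ℝ) ≤ s := by exact_mod_cast hts
  rcases Nat.eq_zero_or_pos t with rfl | ht
  · refine Or.inr ?_
    obtain ⟨v, hv⟩ : X.Nonempty := by
      rw [← card_pos]
      have : (0 : ℝ) < X.card := lt_of_lt_of_le (by positivity) hX
      exact_mod_cast this
    exact ⟨{v}, by simpa using hv, by simp, by simp⟩
  by_cases c1 : 20 * (t : ℝ) ≤ s
  · obtain ⟨x, y, hx, hy, h1, h2⟩ :=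
      es_pair (g := 1.30591) (by norm_num) (by exact_mod_cast ht) c1
    exact es x y hx hy h1 h2
  by_cases c2 : (t : ℝ) ≤ 2 / 5 * s
  · exact cell 20 209529029 1444927000 (1 / 20) (2 / 5) (by norm_num) (by decide +kernel)
      (by unfold D; norm_num) (by norm_num) (by linarith) c2 (by unfold D; norm_num)
      (by unfold D; norm_num)
  by_cases c3 : (t : ℝ) ≤ 7 / 10 * s
  · exact cell 30 356577217 1046679000 (2 / 5) (7 / 10) (by norm_num) (by decide +kernel)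
      (by unfold D; norm_num) (by norm_num) (by linarith) c3 (by unfold D; norm_num)
      (by unfold D; norm_num)
  · exact cell 50 569874997 746478000 (7 / 10) 1 (by norm_num) (by decide +kernel)
      (by unfold D; norm_num) (by norm_num) (by linarith) (by linarith) (by unfold D; norm_num)
      (by unfold D; norm_num)

theorem ram_unif : ∃ C : ℝ, 1 ≤ C ∧ ∀ (V : Type) (G : SimpleGraph V) (s t : ℕ) (X : Finset V),
    C * Real.exp (1.30591 * Real.sqrt (s * t)) ≤ X.card →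
      (∃ S ⊆ X, G.IsNClique (s + 1) S) ∨ ∃ S ⊆ X, G.IsNIndepSet (t + 1) S := by
  obtain ⟨C, hC, h⟩ := ram_half
  refine ⟨C, hC, fun V G s t X hX => ?_⟩
  have key : Clq G.Adj (s + 1) X ∨ Clq (fun u v => ¬ G.Adj u v) (t + 1) X := by
    rcases le_total t s with c | c
    · exact h V _ _ (fun _ _ => G.adj_symm) (fun _ _ x y => x (G.adj_symm y)) (fun _ _ _ x => x)
        s t c X hX
    · exact (h V (fun u v => ¬ G.Adj u v) G.Adj (fun _ _ x y => x (G.adj_symm y))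
        (fun _ _ => G.adj_symm) (fun _ _ _ x => not_not.1 x) t s c X
        (by rwa [mul_comm (t : ℝ)])).symm
  rcases key with ⟨S, h1, h2, h3⟩ | ⟨S, h1, h2, h3⟩
  · exact Or.inl ⟨S, h1, fun u hu v hv huv => h3 u hu v hv huv, h2⟩
  · exact Or.inr ⟨S, h1, fun u hu v hv huv => h3 u hu v hv huv, h2⟩

end Pool.Agent.Work.MP_327896_co
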